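import Pool.Agent.J4H50.YK.Stm

/-! Project YK: (W4) -/

set_option autoImplicit false

namespace Pool.Agent.J4H66.YK

open MvPolynomial
open Pool.Agent.W428.MOT
open Pool.Agent.TH192.MT (ar)
open Pool.Agent.J4H50.YJ
open Pool.Agent.J4H50.YK

/-- `D ord y ≥ N` -/
def Vn {F : Type} [Field F] (D N : ℕ) (y : PowerSeries F) : Prop :=
  ∀ j, D * j < N → PowerSeries.coeff j y = 0

section Vn

variable {F : Type} [Field F] {D : ℕ}

theorem vn_mul {N N' : ℕ} {y z : PowerSeries F} (hy : Vn D N y) (hz : Vn D N' z) :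
    Vn D (N + N') (y * z) := by
  intro j hj
  rw [PowerSeries.coeff_mul]
  apply Finset.sum_eq_zero
  intro p hp
  rw [Finset.HasAntidiagonal.mem_antidiagonal] at hp
  by_cases h : D * p.1 < N
  · rw [hy _ h, zero_mul]
  · have h2 : D * p.2 < N' := by
      have h3 : D * p.1 + D * p.2 = D * j := by rw [← hp]; ring
      omega
    rw [hz _ h2, mul_zero]

theorem vn_one : Vn D 0 (1 : PowerSeries F) := by
  intro j hj
  omega

theorem vn_pow {N : ℕ} {y : PowerSeries F} (hy : Vn D N y) (a : ℕ) : Vn D (a * N) (y ^ a) := by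
  induction a with
  | zero => rw [zero_mul, pow_zero]; exact vn_one
  | succ a ih =>
    rw [pow_succ, Nat.succ_mul]
    exact vn_mul ih hy

theorem vn_prod {ι : Type} (s : Finset ι) (N : ι → ℕ) (y : ι → PowerSeries F)
    (h : ∀ i ∈ s, Vn D (N i) (y i)) : Vn D (∑ i ∈ s, N i) (∏ i ∈ s, y i) := by
  classical
  induction s using Finset.induction_on with
  | empty => rw [Finset.sum_empty, Finset.prod_empty]; exact vn_one
  | insert a s ha ih =>
    rw [Finset.sum_insert ha, Finset.prod_insert ha]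
    exact vn_mul (h a (Finset.mem_insert_self _ _))
      (ih fun i hi => h i (Finset.mem_insert_of_mem hi))

end Vn

section Gen

variable {K : Type} [Field K] {σ : Type} [Fintype σ]

theorem vn_poly (G : MvPolynomial σ K) (w : σ → ℕ) (D m : ℕ) (hD : 0 < D)
    (hG : ∀ a, coeff a G ≠ 0 → D ≤ Finsupp.weight w a) (x : Ac K σ) (hx : x ∈ Sf w D 1 m) :
    ∀ j < m, PowerSeries.coeff j (aeval x G) = 0 := by
  intro j hj
  rw [MvPolynomial.aeval_def, MvPolynomial.eval₂_eq', map_sum]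
  apply Finset.sum_eq_zero
  intro a ha
  have h1 : D ≤ Finsupp.weight w a := hG a (MvPolynomial.mem_support_iff.mp ha)
  rw [Finsupp.weight_apply, Finsupp.sum_fintype _ _ (fun i => by simp)] at h1
  have hc : ∀ i, Vn D (m * w i) (x i) := by
    intro i j hj
    exact hx i j (by rw [mul_one]; exact hj)
  have h2 := vn_prod (D := D) Finset.univ (fun i => a i * (m * w i)) (fun i => x i ^ a i)
    (fun i _ => vn_pow (hc i) (a i))
  have h3 : D * m ≤ ∑ i, a i * (m * w i) := by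
    calc D * m ≤ (∑ i, a i • w i) * m := Nat.mul_le_mul_right m h1
      _ = ∑ i, a i * (m * w i) := by
        rw [Finset.sum_mul]
        refine Finset.sum_congr rfl fun i _ => ?_
        rw [smul_eq_mul]; ring
  have h4 : ∀ j' < m, PowerSeries.coeff j' (∏ i, x i ^ a i) = 0 := by
    intro j' hj'
    apply h2
    have := Nat.mul_lt_mul_of_pos_left hj' hD
    omega
  rw [PowerSeries.coeff_mul]
  apply Finset.sum_eq_zero
  intro p hp
  rw [Finset.HasAntidiagonal.mem_antidiagonal] at hp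
  rw [h4 p.2 (by omega), mul_zero]

theorem Sf_anti (w : σ → ℕ) (D W : ℕ) {s s' : ℕ} (h : s ≤ s') :
    (Sf w D W s' : Set (Ac K σ)) ⊆ Sf w D W s := by
  intro x hx i j hj
  exact hx i j (lt_of_lt_of_le hj (Nat.mul_le_mul_right _ h))

theorem Sf_scale (w : σ → ℕ) (D W m : ℕ) (hW : 0 < W) :
    (Sf w D W (m * W) : Set (Ac K σ)) = Sf w D 1 m := by
  ext x
  have key : ∀ i j, D * W * j < m * W * w i ↔ D * 1 * j < m * w i := by
    intro i j
    have e1 : D * W * j = (D * 1 * j) * W := by ring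
    have e2 : m * W * w i = (m * w i) * W := by ring
    rw [e1, e2]
    exact Nat.mul_lt_mul_right hW
  constructor
  · intro hx i j hj
    exact hx i j ((key i j).mpr hj)
  · intro hx i j hj
    exact hx i j ((key i j).mp hj)

end Gen

theorem step_ex (P : ℕ → Prop) (a : ℕ) : ∀ b : ℕ, a ≤ b → P a → ¬ P b →
    ∃ s, a ≤ s ∧ s < b ∧ P s ∧ ¬ P (s + 1) := by
  intro b
  induction b with
  | zero =>
    intro h1 h2 h3
    have : a = 0 := by omega
    subst this
    exact absurd h2 h3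
  | succ b ih =>
    intro h1 h2 h3
    rcases Nat.eq_or_lt_of_le h1 with h4 | h4
    · rw [h4] at h2
      exact absurd h2 h3
    · by_cases h5 : P b
      · exact ⟨b, by omega, by omega, h5, h3⟩
      · obtain ⟨s, s1, s2, s3, s4⟩ := ih (by omega) h2 h5
        exact ⟨s, s1, by omega, s3, s4⟩

theorem t_W4 (hB : Bas) (hW0 : S_W0) (hW3 : S_W3) : S_W4 := by
  intro K _ R _ M v hv σ _ G w D hw hD hG hsm m l hm hml
  obtain ⟨W, hWdef⟩ : ∃ W : ℕ, W = ∏ i, w i := ⟨_, rfl⟩
  have hW : 0 < W := by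
    rw [hWdef]
    exact Finset.prod_pos fun i _ => (hw i).1
  have hdvd : ∀ i, w i ∣ W := by
    intro i
    rw [hWdef]
    exact Finset.dvd_prod_of_mem w (Finset.mem_univ i)
  have hV : S_V1 := hB.v1
  have hC : S_CC := hB.cc
  have cSf : ∀ W' s, 0 < W' → IsCyl (Sf w D W' s : Set (Ac K σ)) := fun W' s hW' =>
    (hW0 M v hv w D W' s (fun i => (hw i).1) hD hW').1
  have cOd : ∀ l', IsCyl {x : Ac K σ | Od (aeval x G) l'} := fun l' => cyl_Od M v hv hV hC G l'
  have cZ : IsCyl {x : Ac K σ | ∀ j < m + 1, PowerSeries.coeff j (aeval x G) = 0} := by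
    have h := cyl_finInter (σ := σ) M v hv hV (Finset.range (m + 1))
      (fun j => {x : Ac K σ | PowerSeries.coeff j (aeval x G) = 0}) fun j _ => cyl_coeff (K := K) hC G j
    have e : {x : Ac K σ | ∀ a ∈ Finset.range (m + 1),
        x ∈ {x : Ac K σ | PowerSeries.coeff a (aeval x G) = 0}} =
        {x : Ac K σ | ∀ j < m + 1, PowerSeries.coeff j (aeval x G) = 0} := by
      ext x
      simp only [Set.mem_ofPred_eq, Finset.mem_range]
    rwa [e] at h
  obtain ⟨ops1, ops2, ops3, ops4, ops5⟩ := cyl_ops (σ := σ) M v hv hV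
  have hmW : m * W ≤ (m + 1) * W := Nat.mul_le_mul_right _ (by omega)
  -- the partition of a condition
  have part : ∀ E : Set (Ac K σ), IsCyl E →
      vol M v {x ∈ (Sf w D 1 m : Set (Ac K σ)) | x ∉ Sf w D 1 (m + 1) ∧ x ∈ E} =
      ∑ s ∈ Finset.Ico (m * W) ((m + 1) * W),
        vol M v {x ∈ (Sf w D W s : Set (Ac K σ)) | x ∉ Sf w D W (s + 1) ∧ x ∈ E} := by
    intro E hE
    rw [← vol_finUnion M v hv hV]
    · congr 1
      ext x
      simp only [Set.mem_ofPred_eq, Finset.mem_Ico]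
      constructor
      · rintro ⟨h1, h2, h3⟩
        rw [← Sf_scale w D W m hW] at h1
        rw [← Sf_scale w D W (m + 1) hW] at h2
        obtain ⟨s, s1, s2, s3, s4⟩ := step_ex (fun s => x ∈ (Sf w D W s : Set (Ac K σ)))
          (m * W) ((m + 1) * W) hmW h1 h2
        exact ⟨s, ⟨s1, s2⟩, s3, s4, h3⟩
      · rintro ⟨s, ⟨s1, s2⟩, s3, s4, h3⟩
        rw [← Sf_scale w D W m hW, ← Sf_scale w D W (m + 1) hW]
        exact ⟨Sf_anti w D W s1 s3, fun h => s4 (Sf_anti w D W (by omega) h), h3⟩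
    · intro s _
      have h1 := ops2 _ _ (cSf W s hW) (ops2 _ _ (ops1 _ (cSf W (s + 1) hW)) hE)
      exact h1
    · intro s hs s' hs' hne
      rw [Set.disjoint_left]
      rintro x ⟨h1, h2, -⟩ ⟨h3, h4, -⟩
      rcases Nat.lt_or_gt_of_ne hne with h | h
      · exact h2 (Sf_anti w D W (by omega) h3)
      · exact h4 (Sf_anti w D W (by omega) h1)
  have p1 := part {x : Ac K σ | Od (aeval x G) l} (cOd l)
  have p2 := part {x : Ac K σ | ∀ j < m + 1, PowerSeries.coeff j (aeval x G) = 0} cZ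
  simp only [Set.mem_ofPred_eq] at p1 p2
  rw [p1]
  have hterm : ∀ s ∈ Finset.Ico (m * W) ((m + 1) * W),
      vol M v {x ∈ (Sf w D W s : Set (Ac K σ)) | x ∉ Sf w D W (s + 1) ∧ Od (aeval x G) l} =
      vol M v {x ∈ (Sf w D W s : Set (Ac K σ)) | x ∉ Sf w D W (s + 1) ∧
        ∀ j < m + 1, PowerSeries.coeff j (aeval x G) = 0} * ((1 - v) * v ^ (l - (m + 1))) := by
    intro s hs
    rw [Finset.mem_Ico] at hs
    have h1 : 1 ≤ s := le_trans (Nat.mul_pos hm hW) hs.1
    exact hW3 M v hv G w D W hw hD hW hdvd hG hsm s (m + 1) l h1 hs.2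
      (by rw [Nat.add_sub_cancel]; exact hs.1) (by omega)
  rw [Finset.sum_congr rfl hterm, ← Finset.sum_mul, ← p2, Nat.sub_sub]
  congr 1
  -- the volume of the rest
  have hsub1 : (Sf w D 1 (m + 1) : Set (Ac K σ)) ⊆ Sf w D 1 m := Sf_anti w D 1 (by omega)
  have cT : IsCyl {x ∈ (Sf w D 1 m : Set (Ac K σ)) | Od (aeval x G) m} :=
    ops2 _ _ (cSf 1 m one_pos) (cOd m)
  have d1 := vol_diff M v hv hV (Sf w D 1 m : Set (Ac K σ)) (Sf w D 1 (m + 1) : Set (Ac K σ))
    (cSf 1 m one_pos) (cSf 1 (m + 1) one_pos) hsub1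
  have c1 : IsCyl {x : Ac K σ | x ∈ Sf w D 1 m ∧ x ∉ Sf w D 1 (m + 1)} :=
    ops2 _ _ (cSf 1 m one_pos) (ops1 _ (cSf 1 (m + 1) one_pos))
  have d2 := vol_diff M v hv hV {x : Ac K σ | x ∈ Sf w D 1 m ∧ x ∉ Sf w D 1 (m + 1)}
    {x ∈ (Sf w D 1 m : Set (Ac K σ)) | Od (aeval x G) m} c1 cT (by
      rintro x ⟨h1, h2⟩
      refine ⟨h1, fun h3 => ?_⟩
      exact h2.2 (vn_poly G w D (m + 1) hD hG x h3 m (by omega)))
  rw [d1] at d2
  rw [← d2]
  congr 1
  ext x
  simp only [Set.mem_ofPred_eq]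
  constructor
  · rintro ⟨h1, h2, h3⟩
    exact ⟨⟨h1, h2⟩, fun h4 => h4.2.2 (h3 m (by omega))⟩
  · rintro ⟨⟨h1, h2⟩, h3⟩
    refine ⟨h1, h2, fun j hj => ?_⟩
    have h5 := vn_poly G w D m hD hG x h1
    by_cases hjm : j < m
    · exact h5 j hjm
    · have : j = m := by omega
      subst this
      by_contra h6
      exact h3 ⟨h1, h5, h6⟩

end Pool.Agent.J4H66.YK
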